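import Pool.Agent.H66.BP.Targets

/-!
# BP, module ENS: the energy identity for strips
-/

set_option autoImplicit false

open MeasureTheory Set Filter Topology Metric
open scoped Real ENNReal NNReal

namespace Pool.Agent.H56.BP

open Pool.Agent.H66.BP

lemma sT_eq (S : Strip) (x : ℝ) : S.sT x = derivWithin (fun y => - S.T y) (Ioi x) x := by
  unfold Strip.sT rd
  rw [derivWithin.fun_neg]

lemma sT_mono (S : Strip) : MonotoneOn S.sT (Ioo S.a S.b) := by
  have h : ConvexOn ℝ (Icc S.a S.b) (fun x => - S.T x) := S.concT.neg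
  have h2 := h.monotoneOn_rightDeriv
  rw [interior_Icc] at h2
  intro x hx y hy hxy
  rw [sT_eq, sT_eq]
  exact h2 hx hy hxy

/-- the piece of the top with slopes near `w₀` -/
def piece (S : Strip) (w₀ : ℝ) : Set ℝ := {x | x ∈ Ioo S.a S.b ∧ |S.sT x - w₀| < 1}

lemma piece_ord (S : Strip) (w₀ : ℝ) : OrdConnected (piece S w₀) := by
  refine ⟨fun x hx y hy z hz => ?_⟩
  have hz' : z ∈ Ioo S.a S.b := ⟨lt_of_lt_of_le hx.1.1 hz.1, lt_of_le_of_lt hz.2 hy.1.2⟩
  refine ⟨hz', ?_⟩
  have h1 := sT_mono S hx.1 hz' hz.1
  have h2 := sT_mono S hz' hy.1 hz.2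
  have h3 := abs_lt.1 hx.2
  have h4 := abs_lt.1 hy.2
  rw [abs_lt]
  constructor <;> linarith

lemma norm_exp_I (r : ℝ) : ‖Complex.exp (-(Complex.I * (r : ℂ)))‖ = 1 := by
  have : -(Complex.I * (r : ℂ)) = ((-r : ℝ) : ℂ) * Complex.I := by push_cast; ring
  rw [this, Complex.norm_exp_ofReal_mul_I]

lemma norm_exp_I' (r : ℝ) : ‖Complex.exp (Complex.I * (r : ℂ))‖ = 1 := by
  rw [mul_comm, Complex.norm_exp_ofReal_mul_I]

/-- **Module ENS.** -/
theorem ens (hEN : T_EN) (hALI : T_ALI) : T_ENS := by
  intro S w₀ φ hφ hc hφ0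
  set I := piece S w₀ with hI
  have hord := piece_ord S w₀
  have hIm : MeasurableSet I := hord.measurableSet
  have hIsub : I ⊆ Ioo S.a S.b := fun x hx => hx.1
  have hIb : Bornology.IsBounded I := (isBounded_Ioo S.a S.b).subset hIsub
  -- the extension of the slope
  have hmono : MonotoneOn S.sT I := (sT_mono S).mono hIsub
  obtain ⟨g, hg, hgI⟩ := hmono.exists_monotone_extension
    ⟨w₀ - 1, by rintro _ ⟨x, hx, rfl⟩; linarith [(abs_lt.1 hx.2).1]⟩
    ⟨w₀ + 1, by rintro _ ⟨x, hx, rfl⟩; linarith [(abs_lt.1 hx.2).2]⟩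
  have hgm : Measurable g := hg.measurable
  -- the extension of the top
  set T' : ℝ → ℝ := IccExtend S.hab.le ((Icc S.a S.b).restrict S.T) with hT'
  have hT'c : Continuous T' := (continuousOn_iff_continuous_restrict.1 S.contT).Icc_extend'
  have hT'e : ∀ x ∈ I, T' x = S.T x := fun x hx => by
    rw [hT', IccExtend_of_mem _ _ (Ioo_subset_Icc_self (hIsub hx))]
    rfl
  set n : ℝ → ℝ := fun x => Real.sqrt (1 + g x ^ 2) with hn
  have hnm : Measurable n := by
    rw [hn]
    exact ((measurable_const.add (hgm.pow_const 2))).sqrt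
  have hne : ∀ x ∈ I, al S.T x = n x := fun x hx => by
    have h1 : S.sT x = g x := hgI hx
    rw [hn]
    simp only
    rw [← h1]
    unfold al Strip.sT
    rw [neg_sq]
  have hnN : ∀ x ∈ I, |n x| ≤ 2 + |w₀| := fun x hx => by
    have h1 : S.sT x = g x := hgI hx
    have h2 : |g x| ≤ 1 + |w₀| := by
      have h3 := hx.2
      rw [h1] at h3
      have h4 : |g x| ≤ |g x - w₀| + |w₀| := by
        have := abs_add_le (g x - w₀) w₀
        simpa using this
      linarith
    rw [hn]
    simp only
    rw [abs_of_nonneg (Real.sqrt_nonneg _)]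
    rw [Real.sqrt_le_left (by positivity)]
    have h5 : g x ^ 2 = |g x| ^ 2 := (sq_abs _).symm
    rw [h5]
    nlinarith [abs_nonneg (g x), abs_nonneg w₀]
  -- almost every point
  have hae : ∀ᵐ x ∂(volume.restrict I), I ∈ 𝓝 x ∧ HasDerivAt T' (- g x) x ∧ ContinuousAt n x := by
    rw [ae_restrict_iff' hIm]
    have h1 : ∀ᵐ x : ℝ, x ∉ frontier I := by
      have := (hord.convex).addHaar_frontier (μ := volume)
      exact measure_eq_zero_iff_ae_notMem.1 this
    have h2 : ∀ᵐ x : ℝ, x ∉ {x | ¬ ContinuousAt g x} := by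
      have := hg.countable_not_continuousAt
      exact measure_eq_zero_iff_ae_notMem.1 (this.measure_zero volume)
    filter_upwards [h1, h2] with x hx1 hx2 hxI
    have hint : I ∈ 𝓝 x := by
      rw [← mem_interior_iff_mem_nhds]
      by_contra h
      exact hx1 ⟨subset_closure hxI, h⟩
    have hgc : ContinuousAt g x := by
      by_contra h
      exact hx2 h
    refine ⟨hint, ?_, ?_⟩
    · have key : ∀ᶠ y in 𝓝 x, T' y = T' x + ∫ u in x..y, - g u := by
        filter_upwards [hint] with y hy
        have hftc : ∀ p q, p ∈ I → q ∈ I → p ≤ q → ∫ u in p..q, - g u = S.T q - S.T p := by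
          intro p q hp hq hpq
          have h3 := ((hALI S.a S.b S.T S.hab (Or.inr S.concT) S.contT).2.2 p
            (Ioo_subset_Icc_self (hIsub hp)) q (Ioo_subset_Icc_self (hIsub hq)) hpq).1
          rw [← h3]
          apply intervalIntegral.integral_congr
          intro u hu
          rw [uIcc_of_le hpq] at hu
          have huI : u ∈ I := hord.out hp hq hu
          have h4 : S.sT u = g u := hgI huI
          simp only
          rw [← h4]
          unfold Strip.sT
          ring
        rw [hT'e y hy, hT'e x hxI]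
        rcases le_total x y with h | h
        · rw [hftc x y hxI hy h]
          ring
        · rw [intervalIntegral.integral_symm, hftc y x hy hxI h]
          ring
      have h5 : HasDerivAt (fun y => T' x + ∫ u in x..y, - g u) (- g x) x := by
        apply HasDerivAt.const_add
        exact intervalIntegral.integral_hasDerivAt_right (by simp)
          (hgm.neg.stronglyMeasurable.stronglyMeasurableAtFilter) hgc.neg
      exact h5.congr_of_eventuallyEq key
    · rw [hn]
      exact (continuousAt_const.add (hgc.pow 2)).sqrt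
  -- the norm of the amplitude
  have hnorm : ∀ τ w : ℝ, ‖S.aT w₀ τ w‖ =
      ‖∫ x in I, Complex.exp (Complex.I * τ * ((T' x + w * x : ℝ) : ℂ)) * (n x : ℂ)‖ := by
    intro τ w
    have e1 : S.aT w₀ τ w = Complex.exp (-(Complex.I * ((τ * S.hT w : ℝ) : ℂ))) *
        ∫ x in I, Complex.exp (Complex.I * τ * ((T' x + w * x : ℝ) : ℂ)) * (n x : ℂ) := by
      unfold Strip.aT
      rw [← integral_const_mul]
      apply setIntegral_congr_fun hIm
      intro x hx
      simp only
      rw [← hT'e x hx, ← hne x hx, ← mul_assoc, ← Complex.exp_add]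
      congr 2
      push_cast
      ring
    rw [e1, norm_mul, norm_exp_I, one_mul]
  have hfin : volume I < ⊤ := hIb.measure_lt_top
  refine ⟨fun τ => ?_, ?_⟩
  · have h1 : (fun w => ‖S.aT w₀ τ w‖) = fun w =>
        ‖∫ x in I, Complex.exp (Complex.I * τ * ((T' x + w * x : ℝ) : ℂ)) * (n x : ℂ)‖ :=
      funext fun w => hnorm τ w
    rw [h1]
    apply Continuous.norm
    apply continuous_of_dominated (bound := fun _ => 2 + |w₀|)
    · intro w
      apply Measurable.aestronglyMeasurable
      apply Measurable.mul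
      · apply Complex.measurable_exp.comp
        apply Measurable.mul measurable_const
        exact Complex.measurable_ofReal.comp (hT'c.measurable.add (measurable_const.mul measurable_id))
      · exact Complex.measurable_ofReal.comp hnm
    · intro w
      rw [ae_restrict_iff' hIm]
      refine Eventually.of_forall fun x hx => ?_
      rw [norm_mul, Complex.norm_real]
      have : Complex.I * τ * ((T' x + w * x : ℝ) : ℂ) =
          Complex.I * ((τ * (T' x + w * x) : ℝ) : ℂ) := by push_cast; ring
      rw [this, norm_exp_I', one_mul]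
      exact hnN x hx
    · have : IsFiniteMeasure (volume.restrict I) := ⟨by simpa using hfin⟩
      exact integrable_const _
    · refine Eventually.of_forall fun x => ?_
      fun_prop
  · have h1 := hEN I T' g n (2 + |w₀|) hIm hIb hT'c.measurable hgm hnm hnN hae φ hφ hc
    have e1 : ∫ x in I, φ (g x) * (n x) ^ 2 = ∫ v, φ v * (1 + v ^ 2) ∂S.μT := by
      have hsm : AEMeasurable S.sT (volume.restrict (Ioo S.a S.b)) :=
        aemeasurable_restrict_of_monotoneOn measurableSet_Ioo (sT_mono S)
      have hcont : Continuous fun v : ℝ => φ v * (1 + v ^ 2) := by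
        have := hφ.continuous
        fun_prop
      unfold Strip.μT
      rw [integral_map hsm hcont.aestronglyMeasurable]
      rw [setIntegral_eq_of_subset_of_forall_diff_eq_zero measurableSet_Ioo hIsub]
      · apply setIntegral_congr_fun hIm
        intro x hx
        have h2 : S.sT x = g x := hgI hx
        simp only [hn]
        rw [h2, Real.sq_sqrt (by positivity)]
      · intro x hx
        have h2 : ¬ |S.sT x - w₀| < 1 := fun h => hx.2 ⟨hx.1, h⟩
        rw [hφ0 (S.sT x) (by linarith [not_lt.1 h2]), zero_mul]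
    rw [e1] at h1
    refine h1.congr fun τ => ?_
    simp_rw [hnorm]

end Pool.Agent.H56.BP
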